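import Pool.Agent.H1.TG.Fin
import Pool.Graph.R_pool_sql_team_seeded_3997aac3.Q223.TW.Glob

/-!
# The twisted monodromy conjecture: families of quadrics over the line, global zeta functions, all orders

Let `f ≠ 0` be a polynomial of degree at most two in all but one of its variables,

`f = c(t) + ∑_j b_j(t) x_j + ∑_(j, k) q_jk(t) x_j x_k`,    ARBITRARY `c, b_j, q_jk ∈ ℂ[t]`,

or a polynomial which becomes of this form by an automorphism of the polynomial ring. So `f = 0` is any
family of affine quadrics over the line, with arbitrary discriminant and degenerate fibres: `f` may be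
reducible and non-reduced, and its singular locus may have any dimension. We prove Q1 for `f`, for all `e ≥ 1`,
in the strong form: every pole of the global twisted topological zeta function `Z^(e)` of `f` is a root of
`b_f`, so that (Malgrange, Kashiwara) `exp(2 π i s₀)` is an eigenvalue of the monodromy at some point.

**Definition of `Z^(e)`** (library, Denef and Loeser). Let `Y_k` be the topological zeta function of
`∑_(d ≥ 1) [U_(d, k)] 𝕃 ^ (-n d) T ^ d`, where `U_(d, k)` is the `k`-fold cover of the set of the `d`-jets `φ` with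
`ord f(φ) = d` given by the angular component: the pairs of `φ` and `w ≠ 0` with
`f(φ) = w ^ k t ^ d mod t ^ (d + 1)`. Then `Y_k = ∑_(e ∣ k) φ(e) Z^(e)`, and the `Z^(e)` are given by Möbius
inversion.

**Method** (`Pool/Agent/H1/TG`). We prove that for every `k` the series of the classes of the `U_(d, k)`, in the
Grothendieck ring of varieties with `𝕃` inverted, is a rational function whose denominator is a product
of factors `1 - 𝕃 ^ (-ν) T ^ N` such that `-ν / N` is a root of all the `b` with a functional equation for `f`.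

(1) The covers of `f` are the sets of the jets with `y(0) ≠ 0` on which `y ^ k f` has the angular component
one, `y` a new variable (`Cov.lean`, `Fin.lean`). Recursions for relative cones and for smooth points
(`Base`, `Cone`, `Sm`).

(2) Affinely independent exponents (`Sp`, `Sp2`). The rays of the Newton polyhedron of `y ^ k f` which
contribute over `y ≠ 0` are controlled by the functional equation of `f`, not only of `y ^ k f`: the
coefficients of the series of a stratum with the zero set `J`, `y ∉ J`, are those for `f`.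

(3) Along a fibre `t = t₀` the function is, up to units which are constant on the fibre,
`∑_j t ^ (m_j) y_j ^ (e_j) + t ^ l`, `e_j ∈ {1, 2}` (completing squares over the discrete valuation ring); units have
roots modulo `t ^ L`, so the covers are those of a polynomial with affinely independent exponents or of a
monomial (`MR`, `Fib`).

(4) Over the other points of the line `D(t) f = ∑_j U_j(t) y_j ^ (e_j) + c(t)` with units `D, U_j` and with `c`
zero or a unit; `y` is divided by `D(t)`, and `{f = 0}` is smooth or `f` is a relative cone (`Gen`, `Asm`).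
-/

set_option autoImplicit false

namespace Pool.Agent.Results.MP_b22d1f_ag.QuadricBundlesGlobalTwisted

open MvPolynomial Pool.Agent.H1.TG
open Pool.Agent.Q57.MC (locEq1_of_eq top_poles sf_forced)
open Pool.Agent.W428.MOT (MK Lu)
open Pool.Agent.TH192.MT (exists_meas)
open Pool.Agent.TH192.MU (IsTwistedTop zetaC)
open Pool.Agent.H628R4.TP (IsBFunction)
open Pool.Agent.Q223.TW (zetaC_iso bfun_aut HasVal hasVal_iff hasVal_C)

/-- `f` has degree at most two in the variables other than `x_t`: all its monomials
`∏ x_i ^ (m_i)` have `∑_(i ≠ t) m_i ≤ 2`. -/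
def QuadricOverLine {n : ℕ} (t : Fin n) (f : MvPolynomial (Fin n) ℂ) : Prop :=
  ∀ m ∈ f.support, ∑ i ∈ Finset.univ.erase t, m i ≤ 2

/-- **The strong form of Q1 for all `e ≥ 1`, for families of quadrics over the line.**

`φ f` has degree at most two in all but one variable, for an automorphism `φ` of the polynomial ring.
`Z` is the global twisted topological zeta function `Z^(e)` of `f` (`IsTwistedTop E ε f e Z`: for `k ∣ e` let `Y_k`
be the rational function whose values at `s = 1, 2, …` are the values under `ε` of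
`∑_(d ≥ 1) [U_(d, k)] 𝕃 ^ (-n d) T ^ d` at `T = 𝕃 ^ (-s)`, after a realisation `E` of the Grothendieck ring `MK ℂ` with
values in a domain `R`, where `ε (E 𝕃) = 1` and `E 𝕃 ≠ 1`, for instance the Euler characteristic, from the
Hodge-Deligne polynomials; `Z` is given by the `Y_k` by Möbius inversion), `s₀` is a pole of `Z`, and `b`
satisfies `b(s) f ^ s = P(s) f ^ (s + 1)`, `P(s)` in the Weyl algebra, polynomial in `s` (for instance
`b = b_f`). Then `b(s₀) = 0`. -/
theorem result {n : ℕ} (t : Fin n) (f : MvPolynomial (Fin n) ℂ)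
    (φ : MvPolynomial (Fin n) ℂ ≃ₐ[ℂ] MvPolynomial (Fin n) ℂ) (hf : QuadricOverLine t (φ f))
    (h0 : f ≠ 0) {R : Type} [CommRing R] [IsDomain R] (E : MK ℂ →+* R) (ε : R →+* ℂ)
    (hε : ε (E ((Lu ℂ : (MK ℂ)ˣ) : MK ℂ)) = 1) (hE : E ((Lu ℂ : (MK ℂ)ˣ) : MK ℂ) ≠ 1)
    (e : ℕ) (he : 1 ≤ e) (Z : RatFunc ℂ) (hZ : IsTwistedTop E ε f e Z) (s₀ : ℂ)
    (hs : Z.denom.eval s₀ = 0) (b : Polynomial ℂ) (hb : IsBFunction f b) : b.eval s₀ = 0 := by
  classical
  obtain ⟨Y, hY, hsum⟩ := hZ
  obtain ⟨M, hL, hχ⟩ := exists_meas ℂ
  -- a pole of some `Y_k`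
  obtain ⟨k, hk, hpole⟩ : ∃ k, k ∣ e ∧ (Y k).denom.eval s₀ = 0 := by
    by_contra hcon
    push Not at hcon
    have h1 : ∀ s : Finset (ℕ × ℕ), (∀ q ∈ s, q.2 ∣ e) → ∃ c, HasVal (∑ q ∈ s,
        ((ArithmeticFunction.moebius q.1 : ℤ) : RatFunc ℂ) * Y q.2) s₀ c := by
      intro s hs
      induction s using Finset.induction_on with
      | empty =>
        refine ⟨0, 0, 1, ?_, ?_, ?_⟩
        · rw [Finset.sum_empty, map_zero, zero_mul]
        · rw [Polynomial.eval_one]
          exact one_ne_zero
        · rw [Polynomial.eval_zero, zero_mul]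
      | insert q s hq ih =>
        obtain ⟨c, hc⟩ := ih fun q' hq' => hs q' (Finset.mem_insert_of_mem hq')
        have h3 := hcon q.2 (hs q (Finset.mem_insert_self _ _))
        have hc' : HasVal (Y q.2) s₀ ((Y q.2).num.eval s₀ / (Y q.2).denom.eval s₀) :=
          hasVal_iff.2 ⟨h3, (div_mul_cancel₀ _ h3).symm⟩
        rw [Finset.sum_insert hq]
        have h2 := hasVal_C ((ArithmeticFunction.moebius q.1 : ℤ) : ℂ) s₀
        have h4 : algebraMap (Polynomial ℂ) (RatFunc ℂ)
            (Polynomial.C ((ArithmeticFunction.moebius q.1 : ℤ) : ℂ)) =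
            ((ArithmeticFunction.moebius q.1 : ℤ) : RatFunc ℂ) := by
          rw [map_intCast, map_intCast]
        rw [h4] at h2
        exact ⟨_, (h2.mul hc').add hc⟩
    obtain ⟨c, p, q, e1, e2, -⟩ := h1 e.divisorsAntidiagonal fun q hq =>
      Dvd.intro_left q.1 (Nat.mem_divisorsAntidiagonal.1 hq).1
    rw [← hsum] at e1
    have hφ : ((Nat.totient e : ℕ) : ℂ) ≠ 0 := by
      have h2 : 0 < Nat.totient e := Nat.totient_pos.2 he
      exact_mod_cast h2.ne'
    have e3 : Z * algebraMap (Polynomial ℂ) (RatFunc ℂ)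
        (Polynomial.C ((Nat.totient e : ℕ) : ℂ) * q) = algebraMap (Polynomial ℂ) (RatFunc ℂ) p := by
      rw [← e1, map_mul, map_natCast, map_natCast]
      ring
    have e4 : (Polynomial.C ((Nat.totient e : ℕ) : ℂ) * q).eval s₀ ≠ 0 := by
      rw [Polynomial.eval_mul, Polynomial.eval_C]
      exact mul_ne_zero hφ e2
    exact (hasVal_iff.1 (⟨_, _, e3, e4, (div_mul_cancel₀ _ e4).symm⟩ :
      HasVal Z s₀ (p.eval s₀ / (Polynomial.C ((Nat.totient e : ℕ) : ℂ) * q).eval s₀))).1 hs
  have hk0 : 0 < k := Nat.pos_of_dvd_of_pos hk he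
  -- the denominators of the series of the `k`-fold covers
  have hF0 : φ f ≠ 0 := fun h => h0 ((map_eq_zero_iff φ φ.injective).1 h)
  obtain ⟨S, hS, hz⟩ := ts_but hL k hk0 (t := t) (f := φ f) hf hF0
  have h5 := zetaC_mem hL hχ (φ f) k _ hz
  rw [zetaC_iso φ rfl] at h5
  obtain ⟨q, hq, rfl⟩ := top_poles E ε hε hE _ (fun q hq => ⟨(hS q hq).1, (hS q hq).2.1⟩) _ h5
    (Y k) (hY k hk) s₀ hpole
  obtain ⟨p, hp⟩ := (hS q hq).2.2
  exact sf_forced hp b (locEq1_of_eq _ b (bfun_aut φ hb))

end Pool.Agent.Results.MP_b22d1f_ag.QuadricBundlesGlobalTwisted
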