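import Pool.Agent.H1.TW.Main

set_option autoImplicit false

/-! # The twisted monodromy conjecture: all the germs of quadric bundles over lines, with orders

Let `f ∈ ℂ[x_1, …, x_n]`, `f ≠ 0`, be a sum, in separate variables, of polynomials of the form

`c(t) + ∑_j b_j(t) x_j + ∑_{j,j'} q_{j,j'}(t) x_j x_{j'} + ∑_i e_i(t) ∏_j z_{i,j} ^ a_{i,j}`            (*)

with ARBITRARY polynomials `c, b_j, q_{j,j'}, e_i ∈ ℂ[t]` and exponents `a_{i,j} ≥ 1`. For instance `f` is any
polynomial of degree at most two in all but one of its variables (a quadric bundle over the line, whose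
discriminant and degenerate fibres are arbitrary: `f` may be reducible and non-reduced, with singular loci of
any dimension), or a Thom-Sebastiani sum of such polynomials.

(1) At every zero `P` of `f` the germ of `f` has a *model*: in formal coordinates `x` at `P`, `f` is a unit
times a polynomial `∑_j a_j x ^ (v_j)` with affinely independent exponents `v_j ≠ 0` and `a_j ≠ 0`.

(2) Let `Z_P^(e)` be the local twisted topological zeta function of `f` at `P`, on the embedded resolution of
the model which is given by a smooth fan `R`: the sum of `χ(E_I° ∩ h⁻¹(P)) ∏_{i ∈ I} 1 / (s N_i + ν_i)` over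
the `I ≠ ∅` with `e ∣ N_i` for all `i ∈ I`. For every `b` with a functional equation
`b(s) f ^ s = P(s) f ^ (s + 1)` for the germ of `f` at `P`, or for `f`, the product `b(s) Z_P^(e)(s)` is a
polynomial, and for `e ≥ 2` it is divisible by `s + 1`. So every pole `s₀` of `Z_P^(e)` is a root of `b_{f,P}`
and of `b_f` (for `e ≥ 2` of `b_f(s) / (s + 1)`), of at least the same order, and `exp(2 π i s₀)` is an eigenvalue of the
monodromy of `f` at a point near `P` (Malgrange, Kashiwara).

(3) The same for `b_f` and all the finite sums `∑_t χ_t Z_{P_t}^(e)`. The global twisted topological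
zeta function of `f` is such a sum, with `P_t` in the stratum `S_t` of a suitable finite stratification of
`X_0 = {f = 0}` and `χ_t = χ(S_t)`.

Method (`Pool/Agent/H1/QB`, `TB`, `TW`). Completion of squares over the discrete valuation ring of the line
gives at every zero `D f = ∑_i U_i ∏_k l_k ^ M_{i,k} ∏_{v ∈ V_i} ξ_v ^ a_v + ∑_{k ∈ A} W_k l_k ^ n_k`, where the
`l_k`, `ξ_v` are part of a system of local coordinates, `D`, the `U_i` and the `W_k` are units, and for each
`i` at most one of the `M_{i,k}` is nonzero. The exponents are such that all the units can be absorbed by a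
formal change of the coordinates. A functional equation of `f` is carried over to the model, where it gives
an algebraic relation which kills the polar part of the zeta function. -/

namespace Pool.Agent.Results.MP_b22d1f_ag.QuadricBundlesTwisted

open MvPolynomial
open Pool.Agent.H1.TB (Bundles)
open Pool.Agent.H1.TW (IsModel exists_model model_strong local_of_global sum_poly)
open Pool.Agent.Q49.CO (trn)
open Pool.Agent.W425.SM (SmoothFan Principal)
open Pool.Agent.Y229.GL (topZetaTwistedLocal)
open Pool.Agent.H628R4.TP (IsBFunction IsLocalBFunction)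

/-- `P` is a zero of `f` and `Z` is the local twisted topological zeta function `Z_P^(e)`, from a model
`(v, a)` of the germ of `f` at `P` and a smooth fan `R` on which `(x ^ (v j))_j` is principal. -/
def LocTw {n : ℕ} (f : MvPolynomial (Fin n) ℂ) (e : ℕ) (P : Fin n → ℂ) (Z : RatFunc ℂ) : Prop :=
  eval P f = 0 ∧ ∃ (c k : ℕ) (v : Fin k → Fin c → ℕ) (a : Fin k → ℂ) (R : SmoothFan c), 0 < k ∧
    IsModel (trn P f) v a ∧ Principal v R ∧ Z = topZetaTwistedLocal v R e

/-- `b Z` is a polynomial, which is divisible by `s + 1` if `e ≠ 1`. -/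
def Kills (b : Polynomial ℂ) (e : ℕ) (Z : RatFunc ℂ) : Prop :=
  ∃ Q : Polynomial ℂ, algebraMap (Polynomial ℂ) (RatFunc ℂ) b * Z =
    algebraMap (Polynomial ℂ) (RatFunc ℂ) ((if e = 1 then 1 else Polynomial.X + 1) * Q)

/-- **The strong form of the twisted monodromy conjecture, with orders, for the germs of sums of quadric
bundles over lines.** Here `A` are the data of `f` (`A.poly` is the sum of the polynomials (*)) and `ψ`
gives the names of the variables. -/
theorem result {n : ℕ} (A : Bundles) (hA : A.poly ≠ 0) (ψ : A.Var ≃ Fin n)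
    (f : MvPolynomial (Fin n) ℂ) (hf : f = rename ψ A.poly) :
    (∀ P : Fin n → ℂ, eval P f = 0 → ∃ (c k : ℕ) (v : Fin k → Fin c → ℕ) (a : Fin k → ℂ),
      0 < k ∧ IsModel (trn P f) v a) ∧
    (∀ e : ℕ, 1 ≤ e → ∀ (P : Fin n → ℂ) (Z : RatFunc ℂ), LocTw f e P Z → ∀ b : Polynomial ℂ,
      (IsLocalBFunction (trn P f) b ∨ IsBFunction f b) → Kills b e Z) ∧
    ∀ e : ℕ, 1 ≤ e → ∀ (m : ℕ) (P : Fin m → Fin n → ℂ) (Z : Fin m → RatFunc ℂ),
      (∀ t, LocTw f e (P t) (Z t)) → ∀ χ : Fin m → ℂ, ∀ b : Polynomial ℂ, IsBFunction f b →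
      Kills b e (∑ t, RatFunc.C (χ t) * Z t) := by
  have h1 : ∀ e : ℕ, 1 ≤ e → ∀ (P : Fin n → ℂ) (Z : RatFunc ℂ), LocTw f e P Z →
      ∀ b : Polynomial ℂ, (IsLocalBFunction (trn P f) b ∨ IsBFunction f b) → Kills b e Z := by
    rintro e he P Z ⟨-, c, k, v, a, R, hk, hM, hR, rfl⟩ b hb
    refine model_strong _ v a hk hM R hR b ?_ e he
    rcases hb with hb | hb
    · exact hb
    · exact local_of_global f P b hb
  refine ⟨fun P hP => ?_, h1, fun e he m P Z hZ χ b hb =>
    sum_poly Finset.univ b _ Z χ fun t _ => h1 e he (P t) (Z t) (hZ t) b (Or.inr hb)⟩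
  subst hf
  exact exists_model A hA ψ P hP

end Pool.Agent.Results.MP_b22d1f_ag.QuadricBundlesTwisted
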